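import Pool.Agent.NPC.Defs

/-!
# The subpower membership problem of a finite semigroup
-/

namespace Pool.Agent.H648R3.SMP

open Pool.Agent.NPC

/-- A semigroup is completely regular if every element `a` has an `x` with `a = a x a` and
`a x = x a` (equivalently, every element lies in a subgroup). -/
def CompletelyRegular (S : Type) [Semigroup S] : Prop :=
  ∀ a : S, ∃ x : S, a = a * x * a ∧ a * x = x * a

/-- The subpower membership problem of `S`. An instance `((n, A), b)` consists of a number `n`, a
list `A` of `n`-tuples over `S` and an `n`-tuple `b` over `S` (tuples are lists of elements of `S`);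
the question is whether `b` is in the subsemigroup of `S ^ n` generated by the members of `A`. -/
def SMP (S : Type) [Semigroup S] (I : (ℕ × List (List S)) × List S) : Prop :=
  (∀ a ∈ I.1.2, a.length = I.1.1) ∧ ∃ b : Fin I.1.1 → S, I.2 = List.ofFn b ∧
    b ∈ Subsemigroup.closure {a : Fin I.1.1 → S | List.ofFn a ∈ I.1.2}

end Pool.Agent.H648R3.SMP
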