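import Pool.Agent.H648R3.SMP.Sides

/-!
# Reaching all elements of an `H`-class

The cube argument of Babai and Szemerédi, applied to Schreier generators of the maximal subgroup.
-/

namespace Pool.Agent.H648R3.SMP

variable {M : Type} [Semigroup M] {E : ℕ}

/-- Closing up under the Schreier generators gives the whole group. -/
theorem schreier (hE : Expo M E) {A : Set M} {e : M} (hee : e * e = e)
    (heA : e ∈ Subsemigroup.closure A) (hA : ∀ a ∈ A, Ab a e) (ρ : M → M)
    (hρ : ∀ x ∈ Subsemigroup.closure A, Rr x e → Lr (ρ x) x ∧ Rr (ρ x) e ∧ (Lr x e → ρ x = e))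
    (D : Set M) (heD : e ∈ D)
    (hD : ∀ d ∈ D, ∀ x ∈ Subsemigroup.closure A, Rr x e → ∀ b ∈ A,
      d * (ρ x * b * spow (ρ (x * b) * e) E) ∈ D) :
    ∀ h ∈ Subsemigroup.closure A, Rr h e → Lr h e → h ∈ D := by
  have hAe : ∀ x ∈ Subsemigroup.closure A, Ab x e := fun x hx => by
    induction hx using Subsemigroup.closure_induction with
    | mem x hx => exact hA x hx
    | mul x y _ _ hx hy => exact hE.ab_mul hx hy
  -- the inverse of `ρ x e`
  have hτ : ∀ x ∈ Subsemigroup.closure A, Rr x e →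
      ρ x * spow (ρ x * e) E = e ∧ x * spow (ρ x * e) E * ρ x = x := by
    intro x hx hxe
    obtain ⟨h1, h2, _⟩ := hρ x hx hxe
    have h3 : Rr (ρ x * e) e := (hE.rr_mul (hE.rr_ab h2.symm)).trans h2
    have h4 : Lr (ρ x * e) e := hE.lr_mul (hE.rr_ab h2)
    have h5 : e * spow (ρ x * e) E = spow (ρ x * e) E :=
      rr_unit_left hee ((hE.rr_spow _ E).trans h3)
    have h6 : ρ x * spow (ρ x * e) E = e := by
      rw [← h5, ← mul_assoc, ← spow_succ', hE.idm_eq hee h3 h4]
    refine ⟨h6, ?_⟩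
    obtain ⟨⟨y, hy⟩, _⟩ := h1
    have h7 : e * ρ x = ρ x := rr_unit_left hee h2
    calc x * spow (ρ x * e) E * ρ x = y * ρ x * spow (ρ x * e) E * ρ x := by rw [hy]
      _ = y * ((ρ x * spow (ρ x * e) E) * ρ x) := by simp only [mul_assoc]
      _ = x := by rw [h6, h7, hy]
  have hre : Rr e e := hE.rr_refl e
  have hρe : ρ e = e := (hρ e heA hre).2.2 (hE.lr_refl e)
  have key : ∀ u, WordR A u → (e * u) * spow (ρ (e * u) * e) E ∈ D := by
    intro u hu
    induction hu with
    | @base b hb =>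
      have h1 := hD e heD e heA hre b hb
      rw [hρe] at h1
      have h2 : e * (e * b * spow (ρ (e * b) * e) E) = (e * b) * spow (ρ (e * b) * e) E := by
        rw [← mul_assoc, ← mul_assoc, hee]
      rwa [h2] at h1
    | @snoc u b hu hb ih =>
      have hx : e * u ∈ Subsemigroup.closure A := mul_mem heA hu.mem
      have hxe : Rr (e * u) e := hE.rr_mul (hAe u hu.mem)
      have h1 := hD _ ih _ hx hxe b hb
      have h2 : e * u * spow (ρ (e * u) * e) E * (ρ (e * u) * b * spow (ρ (e * u * b) * e) E) =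
          e * (u * b) * spow (ρ (e * (u * b)) * e) E := by
        calc _ = (e * u * spow (ρ (e * u) * e) E * ρ (e * u)) * b * spow (ρ (e * u * b) * e) E := by
              simp only [mul_assoc]
          _ = e * u * b * spow (ρ (e * u * b) * e) E := by rw [(hτ _ hx hxe).2]
          _ = _ := by rw [mul_assoc e u b]
      rwa [h2] at h1
  intro h hh hr hl
  have h1 := key h (wordR_of_mem hh)
  have h2 : e * h = h := rr_unit_left hee hr
  rw [h2, (hρ h hh hr).2.2 hl] at h1
  have h3 : h * spow (e * e) E = h := by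
    have h4 : ∀ n, spow (e * e) n = e := by
      intro n
      induction n with
      | zero => exact hee
      | succ n ih => rw [spow_succ, ih, hee, hee]
    rw [h4]
    exact lr_unit_right hee hl
  rwa [h3] at h1

/-- The bound for the `H`-class in terms of the bounds for the `R`- and `L`-classes. -/
def gb (E g I : ℕ) : ℕ :=
  (2 * g + E + 2) + (I + 1) * (2 * I + E + 2 + (2 * ((2 * g + E + 2) + g + 1) +
    (2 * g + E + 2) + E + 4)) + 2 * I + E + 1

theorem group_part [Finite M] (hE : Expo M E) {A : Set M} {w : M}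
    (hw : w ∈ Subsemigroup.closure A) (hA : ∀ a ∈ A, Ab a w) {g I : ℕ}
    (hI : Nat.card M < 2 ^ (I + 1)) (hR : ∃ r, Rr r w ∧ Reach A g r)
    (hL : ∀ x ∈ Subsemigroup.closure A, Rr x w → ∃ l, Lr l x ∧ Reach A g l) :
    Reach A (gb E g I) w := by
  classical
  obtain ⟨r, hr, hrc⟩ := hR
  obtain ⟨l, hl, hlc⟩ := hL w hw (hE.rr_refl w)
  have hrl : Rr (r * l) w :=
    (hE.rr_mul ((hE.lr_ab hl).trans (hE.rr_ab hr.symm))).trans hr
  have hrl' : Lr (r * l) w :=
    (hE.lr_mul ((hE.rr_ab hr).trans (hE.lr_ab hl.symm))).trans hl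
  obtain ⟨e, he⟩ : ∃ e, e = spow (r * l) (E + 1) := ⟨_, rfl⟩
  have hee : e * e = e := by rw [he]; exact hE.idm_idem _
  have hew : Rr e w := by rw [he]; exact (hE.rr_spow _ _).trans hrl
  have hew' : Lr e w := by rw [he]; exact (hE.lr_spow _ _).trans hrl'
  obtain ⟨ce, hce⟩ : ∃ c, c = 2 * g + E + 2 := ⟨_, rfl⟩
  have hec : Reach A ce e := by
    rw [he]
    exact Within.mono (Within.spow (Within.mul hrc hlc) (E + 1)) (by omega)
  have heA := hec.mem_closure
  have hAe : ∀ a ∈ A, Ab a e := fun a ha => (hA a ha).trans (hE.rr_ab hew.symm)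
  -- representatives of the `L`-classes
  obtain ⟨g1, hg1⟩ : ∃ c, c = ce + g + 1 := ⟨_, rfl⟩
  have hρ0 : ∀ x, ∃ ρ, (x ∈ Subsemigroup.closure A → Rr x e →
      Lr ρ x ∧ Rr ρ e ∧ (Lr x e → ρ = e) ∧ Reach A g1 ρ) := by
    intro x
    by_cases hx : x ∈ Subsemigroup.closure A ∧ Rr x e
    · obtain ⟨hx, hxe⟩ := hx
      by_cases hxl : Lr x e
      · exact ⟨e, fun _ _ => ⟨hxl.symm, hE.rr_refl e, fun _ => rfl, Within.mono hec (by omega)⟩⟩
      · obtain ⟨l', hl', hlc'⟩ := hL x hx (hxe.trans hew)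
        refine ⟨e * l', fun _ _ => ⟨?_, ?_, fun h => absurd h hxl, ?_⟩⟩
        · exact (hE.lr_mul ((hE.rr_ab hxe.symm).trans (hE.lr_ab hl'.symm))).trans hl'
        · exact hE.rr_mul ((hE.lr_ab hl').trans (hE.rr_ab hxe))
        · exact Within.mono (Within.mul hec hlc') (by omega)
    · exact ⟨x, fun h1 h2 => absurd ⟨h1, h2⟩ hx⟩
  choose ρ hρ using hρ0
  have hsch := fun D heD hD => schreier hE hee heA hAe ρ
    (fun x hx hxe => ⟨(hρ x hx hxe).1, (hρ x hx hxe).2.1, (hρ x hx hxe).2.2.1⟩) D heD hD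
  -- cost of the generators
  obtain ⟨gY, hgY⟩ : ∃ c, c = 2 * g1 + ce + E + 4 := ⟨_, rfl⟩
  have hY : ∀ x ∈ Subsemigroup.closure A, Rr x e → ∀ b ∈ A,
      Reach A gY (ρ x * b * spow (ρ (x * b) * e) E) := by
    intro x hx hxe b hb
    have hxb : x * b ∈ Subsemigroup.closure A := mul_mem hx (Subsemigroup.subset_closure hb)
    have hxbe : Rr (x * b) e :=
      (hE.rr_mul ((hAe b hb).trans (hE.rr_ab hxe.symm))).trans hxe
    refine Within.mono (Within.mul (Within.mul (hρ x hx hxe).2.2.2 (Reach.of_mem hb))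
      (Within.spow (Within.mul (hρ _ hxb hxbe).2.2.2 hec) E)) ?_
    omega
  have hYH : ∀ x ∈ Subsemigroup.closure A, Rr x e → ∀ b ∈ A,
      (ρ x * b * spow (ρ (x * b) * e) E) ∈ Subsemigroup.closure A ∧
      Rr (ρ x * b * spow (ρ (x * b) * e) E) e ∧ Lr (ρ x * b * spow (ρ (x * b) * e) E) e := by
    intro x hx hxe b hb
    have hxb : x * b ∈ Subsemigroup.closure A := mul_mem hx (Subsemigroup.subset_closure hb)
    have hxbe : Rr (x * b) e :=
      (hE.rr_mul ((hAe b hb).trans (hE.rr_ab hxe.symm))).trans hxe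
    obtain ⟨_, h2, _, _⟩ := hρ _ hxb hxbe
    obtain ⟨_, h2', _, _⟩ := hρ _ hx hxe
    have h3 : Rr (ρ (x * b) * e) e := (hE.rr_mul (hE.rr_ab h2.symm)).trans h2
    have h4 : Lr (ρ (x * b) * e) e := hE.lr_mul (hE.rr_ab h2)
    have h5 : Rr (spow (ρ (x * b) * e) E) e := (hE.rr_spow _ E).trans h3
    have h6 : Lr (spow (ρ (x * b) * e) E) e := (hE.lr_spow _ E).trans h4
    have h7 : Rr (ρ x * b) e := (hE.rr_mul ((hAe b hb).trans (hE.rr_ab h2'.symm))).trans h2'
    refine ⟨(hY x hx hxe b hb).mem_closure, ?_, ?_⟩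
    · exact (hE.rr_mul ((hE.rr_ab h5).trans (hE.rr_ab h7.symm))).trans h7
    · exact (hE.lr_mul ((hE.rr_ab h7).trans (hE.lr_ab h6.symm))).trans h6
  -- the group
  obtain ⟨H, hH⟩ : ∃ H : Set M, H = {h | h ∈ Subsemigroup.closure A ∧ Rr h e ∧ Lr h e} := ⟨_, rfl⟩
  have hHmem : ∀ h, h ∈ H ↔ h ∈ Subsemigroup.closure A ∧ Rr h e ∧ Lr h e := by
    intro h; rw [hH]; rfl
  have hHmul : ∀ x ∈ H, ∀ y ∈ H, x * y ∈ H := by
    intro x hx y hy
    rw [hHmem] at hx hy ⊢
    refine ⟨mul_mem hx.1 hy.1, ?_, ?_⟩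
    · exact (hE.rr_mul ((hE.rr_ab hy.2.1).trans (hE.rr_ab hx.2.1.symm))).trans hx.2.1
    · exact (hE.lr_mul ((hE.rr_ab hx.2.1).trans (hE.lr_ab hy.2.2.symm))).trans hy.2.2
  have hHinv : ∀ x ∈ H, spow x E ∈ H := by
    intro x hx
    rw [hHmem] at hx ⊢
    exact ⟨spow_mem hx.1 E, (hE.rr_spow _ E).trans hx.2.1, (hE.lr_spow _ E).trans hx.2.2⟩
  have hHi : ∀ x ∈ H, spow x (E + 1) = e := by
    intro x hx
    rw [hHmem] at hx
    exact hE.idm_eq hee hx.2.1 hx.2.2
  have heH : e ∈ H := by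
    rw [hHmem]
    exact ⟨heA, hE.rr_refl e, hE.lr_refl e⟩
  have hwH : w ∈ H := by
    rw [hHmem]
    exact ⟨hw, hew.symm, hew'.symm⟩
  have hHl : ∀ x ∈ H, e * x = x := fun x hx => rr_unit_left hee ((hHmem x).1 hx).2.1
  have hHr : ∀ x ∈ H, x * e = x := fun x hx => lr_unit_right hee ((hHmem x).1 hx).2.2
  obtain ⟨B, hB⟩ : ∃ B, B = 2 * I + E + 2 + gY := ⟨_, rfl⟩
  have main : ∀ i ≤ I + 1, Reach A (gb E g I) w ∨ ∃ (L : List M) (K : Finset M), Slp A L ∧
      L.length ≤ ce + i * B ∧ (∀ k ∈ K, k ∈ H) ∧ 2 ^ i ≤ K.card ∧ K.Nonempty ∧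
      ∀ k ∈ K, Within A L i k := by
    intro i
    induction i with
    | zero =>
      intro _
      right
      obtain ⟨L, h1, h2, h3⟩ := hec
      rw [List.append_nil] at h1 h3
      refine ⟨L, {e}, h1, by omega, ?_, by simp, ⟨e, by simp⟩, ?_⟩
      · intro k hk; rw [Finset.mem_singleton.1 hk]; exact heH
      · intro k hk; rw [Finset.mem_singleton.1 hk]; exact Within.of_mem h1 h3
    | succ i ih =>
      intro hi
      rcases ih (by omega) with h | ⟨L, K, hL1, hL2, hK1, hK2, hK3, hK4⟩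
      · exact Or.inl h
      obtain ⟨D, hD⟩ : ∃ D : Set M, D = {d | ∃ k' ∈ K, ∃ k ∈ K, d = spow k' E * k} := ⟨_, rfl⟩
      have hDmem : ∀ d, d ∈ D ↔ ∃ k' ∈ K, ∃ k ∈ K, d = spow k' E * k := by
        intro d; rw [hD]; rfl
      have hDc : ∀ d ∈ D, Within A L (2 * i + E + 1) d := by
        intro d hd
        obtain ⟨k', hk', k, hk, rfl⟩ := (hDmem d).1 hd
        exact Within.mono (Within.mul (Within.spow (hK4 k' hk') E) (hK4 k hk)) (by omega)
      have hDH : ∀ d ∈ D, d ∈ H := by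
        intro d hd
        obtain ⟨k', hk', k, hk, rfl⟩ := (hDmem d).1 hd
        exact hHmul _ (hHinv _ (hK1 k' hk')) _ (hK1 k hk)
      have heD : e ∈ D := by
        obtain ⟨k, hk⟩ := hK3
        exact (hDmem e).2 ⟨k, hk, k, hk, by rw [← spow_succ, hHi k (hK1 k hk)]⟩
      by_cases hcl : ∀ d ∈ D, ∀ x ∈ Subsemigroup.closure A, Rr x e → ∀ b ∈ A,
          d * (ρ x * b * spow (ρ (x * b) * e) E) ∈ D
      · left
        have h1 : w ∈ D := hsch D heD hcl w hw hew.symm hew'.symm
        obtain ⟨L', h2, h3, h4⟩ := hDc w h1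
        refine ⟨L' ++ L, by rwa [List.append_nil], ?_, by rwa [List.append_nil]⟩
        rw [List.length_append]
        have h5 : i * B ≤ (I + 1) * B := Nat.mul_le_mul_right _ (by omega)
        have h6 : gb E g I = ce + (I + 1) * B + 2 * I + E + 1 := by
          rw [hB, hgY, hg1, hce, gb]
        rw [h6]
        omega
      · push Not at hcl
        obtain ⟨d, hd, x, hx, hxe, b, hb, hz⟩ := hcl
        obtain ⟨y, hy⟩ : ∃ y, y = ρ x * b * spow (ρ (x * b) * e) E := ⟨_, rfl⟩
        rw [← hy] at hz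
        have hyH : y ∈ H := by
          rw [hHmem, hy]; exact hYH x hx hxe b hb
        have hzH : d * y ∈ H := hHmul _ (hDH d hd) _ hyH
        have hyc : Reach A gY y := by rw [hy]; exact hY x hx hxe b hb
        obtain ⟨L', h1, h2, h3⟩ := Within.mul (hDc d hd) (Within.of_reach hyc hL1)
        obtain ⟨z, hzz⟩ : ∃ z, z = d * y := ⟨_, rfl⟩
        rw [← hzz] at hz hzH h3
        right
        have hinj : ∀ a ∈ K, ∀ a' ∈ K, a * z = a' * z → a = a' := by
          intro a ha a' ha' haa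
          have h4 : ∀ c ∈ K, c * z * spow z E = c := by
            intro c hc
            rw [mul_assoc, ← spow_succ', hHi z hzH, hHr c (hK1 c hc)]
          rw [← h4 a ha, haa, h4 a' ha']
        have hdisj : ∀ a ∈ K, ∀ a' ∈ K, a ≠ a' * z := by
          intro a ha a' ha' haa
          apply hz
          refine (hDmem z).2 ⟨a', ha', a, ha, ?_⟩
          rw [haa, ← mul_assoc, ← spow_succ, hHi a' (hK1 a' ha'), hHl z hzH]
        refine ⟨L' ++ L, K ∪ K.image (fun a => a * z), h1, ?_, ?_, ?_, ?_, ?_⟩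
        · rw [List.length_append, Nat.succ_mul, hB]
          rw [hB] at hL2
          omega
        · intro k hk
          rcases Finset.mem_union.1 hk with hk | hk
          · exact hK1 k hk
          · obtain ⟨a, ha, rfl⟩ := Finset.mem_image.1 hk
            exact hHmul _ (hK1 a ha) _ hzH
        · rw [Finset.card_union_of_disjoint, Finset.card_image_of_injOn, pow_succ]
          · omega
          · intro a ha a' ha' haa
            exact hinj a ha a' ha' haa
          · rw [Finset.disjoint_left]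
            intro a ha ha'
            obtain ⟨a', ha', haa⟩ := Finset.mem_image.1 ha'
            exact hdisj a ha a' ha' haa.symm
        · exact hK3.mono Finset.subset_union_left
        · intro k hk
          rcases Finset.mem_union.1 hk with hk | hk
          · exact Within.mono (Within.weaken (hK4 k hk) h1) (by omega)
          · obtain ⟨a, ha, rfl⟩ := Finset.mem_image.1 hk
            exact Within.mul (Within.weaken (hK4 a ha) h1) (Within.of_mem h1 h3)
  rcases main (I + 1) le_rfl with h | ⟨L, K, _, _, _, hK, _⟩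
  · exact h
  · exfalso
    have : Fintype M := Fintype.ofFinite M
    have h1 : K.card ≤ Fintype.card M := Finset.card_le_univ K
    rw [Nat.card_eq_fintype_card] at hI
    omega

end Pool.Agent.H648R3.SMP
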