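import Pool.Agent.H648R3.SMP.Group
import Pool.Agent.NPC.Prog

/-!
# Short straight-line programs in subpowers of completely regular semigroups
-/

namespace Pool.Agent.H648R3.SMP

open Pool.Agent.NPC

variable {S : Type} [Semigroup S] [Finite S] {E : ℕ}

theorem card_pow_lt (c n : ℕ) : c ^ n < 2 ^ (n * c + 1) := by
  calc c ^ n ≤ (2 ^ c) ^ n := Nat.pow_le_pow_left Nat.lt_two_pow_self.le n
    _ = 2 ^ (n * c) := by rw [← pow_mul, mul_comm]
    _ < 2 ^ (n * c + 1) := Nat.pow_lt_pow_right (by norm_num) (by omega)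

theorem Within.mono' {M : Type} [Mul M] {A : Set M} {c d : ℕ} {x : M} (h : Reach A c x)
    (hcd : c ≤ d) : Reach A d x := Within.mono h hcd

theorem short_step (hE : Expo S E) {δ : ℕ} {f : ℕ → ℕ} (hf : Monotone f) (hP : Short S δ f) :
    Short S (δ + 1) (fun n => gb E ((f n + 3) * (n * Nat.card S) + 1) (n * Nat.card S)) := by
  intro ι _ A w hw hd
  have hEι := hE.pi ι
  obtain ⟨A₁, hA₁⟩ : ∃ A₁ : Set (ι → S), A₁ = {a | a ∈ A ∧ Ab a w} := ⟨_, rfl⟩
  have hw₁ : w ∈ Subsemigroup.closure A₁ := by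
    rw [hA₁]; exact hEι.closure_above hw (hEι.ab_refl w)
  have hsum : ∀ x : ι → S, ∑ j, dp (x j) ≤ Fintype.card ι * Nat.card S := by
    intro x
    calc ∑ j, dp (x j) ≤ ∑ _j : ι, Nat.card S := Finset.sum_le_sum fun j _ => dp_le_card _
      _ = _ := by rw [Finset.sum_const, Finset.card_univ, smul_eq_mul]
  have hb : ∀ x : ι → S, (f (Fintype.card ι) + 3) * ∑ j, dp (x j) + 1 ≤
      (f (Fintype.card ι) + 3) * (Fintype.card ι * Nat.card S) + 1 := fun x =>
    Nat.add_le_add_right (Nat.mul_le_mul_left _ (hsum x)) 1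
  have h1 : Reach A₁ (gb E ((f (Fintype.card ι) + 3) * (Fintype.card ι * Nat.card S) + 1)
      (Fintype.card ι * Nat.card S)) w := by
    refine group_part hEι hw₁ ?_ ?_ ?_ ?_
    · intro a ha
      rw [hA₁] at ha
      exact ha.2
    · rw [Nat.card_fun, Nat.card_eq_fintype_card (α := ι)]
      exact card_pow_lt _ _
    · obtain ⟨r, hr, hrc⟩ := rpart hE hf hP (wordR_of_mem hw₁) hd
      exact ⟨r, hr, Within.mono hrc (hb w)⟩
    · intro x hx hxw
      have hdx : ∀ j, dp (x j) ≤ δ + 1 := fun j =>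
        (dp_mono (hE.rr_ab (rr_pi.1 hxw j))).trans (hd j)
      obtain ⟨r, hr, hrc⟩ := lpart hE hf hP (wordL_of_mem hx) hdx
      exact ⟨r, hr, Within.mono hrc (hb x)⟩
  exact Within.mono_set (by rw [hA₁]; exact fun a ha => ha.1) h1

theorem short_zero (hE : Expo S E) : Short S 0 (fun _ => 1) := by
  intro ι _ A w hw hd
  by_cases hι : IsEmpty ι
  · have h1 : WordR A w := wordR_of_mem hw
    have h2 : ∃ a, a ∈ A := by
      induction h1 with
      | base ha => exact ⟨_, ha⟩
      | snoc _ ha _ => exact ⟨_, ha⟩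
    obtain ⟨a, ha⟩ := h2
    have h3 : w = a := funext fun j => (hι.false j).elim
    rw [h3]
    exact Reach.of_mem ha
  · rw [not_isEmpty_iff] at hι
    obtain ⟨j⟩ := hι
    have h1 := hd j
    have h2 := hE.dp_pos (w j)
    omega

theorem gb_poly (E c : ℕ) (p : Polynomial ℕ) : ∃ q : Polynomial ℕ, ∀ n,
    gb E ((p.eval n + 3) * (n * c) + 1) (n * c) = q.eval n := by
  obtain ⟨G, hG⟩ : ∃ G : Polynomial ℕ, ∀ n, (p.eval n + 3) * (n * c) + 1 = G.eval n :=
    ⟨(p + Polynomial.C 3) * (Polynomial.X * Polynomial.C c) + Polynomial.C 1, fun n => by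
      simp only [Polynomial.eval_add, Polynomial.eval_mul, Polynomial.eval_C, Polynomial.eval_X]⟩
  refine ⟨(2 * G + Polynomial.C E + 2) + ((Polynomial.X * Polynomial.C c) + 1) *
    (2 * (Polynomial.X * Polynomial.C c) + Polynomial.C E + 2 +
      (2 * ((2 * G + Polynomial.C E + 2) + G + 1) + (2 * G + Polynomial.C E + 2) +
        Polynomial.C E + 4)) + 2 * (Polynomial.X * Polynomial.C c) + Polynomial.C E + 1,
    fun n => ?_⟩
  rw [hG]
  simp only [gb, Polynomial.eval_add, Polynomial.eval_mul, Polynomial.eval_C, Polynomial.eval_X,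
    Polynomial.eval_ofNat, Polynomial.eval_one]

theorem short_all (hE : Expo S E) (δ : ℕ) : ∃ p : Polynomial ℕ, Short S δ (fun n => p.eval n) := by
  induction δ with
  | zero =>
    refine ⟨1, ?_⟩
    have := short_zero hE
    simpa using this
  | succ δ ih =>
    obtain ⟨p, hp⟩ := ih
    obtain ⟨q, hq⟩ := gb_poly E (Nat.card S) p
    refine ⟨q, ?_⟩
    have h1 := short_step hE (fun m n h => eval_mono p h) hp
    have h2 : (fun n => gb E ((p.eval n + 3) * (n * Nat.card S) + 1) (n * Nat.card S)) =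
        fun n => q.eval n := funext hq
    rw [h2] at h1
    exact h1

/-- **Short programs.**  For every finite completely regular semigroup `S` there is a polynomial `p`
such that every element of the subsemigroup generated by a set `A` of elements of `S ^ n` is
computed by a straight-line program over `A` with at most `p n` instructions. -/
theorem short_programs (S : Type) [Semigroup S] [Finite S]
    (hS : ∀ a : S, ∃ x : S, a = a * x * a ∧ a * x = x * a) :
    ∃ p : Polynomial ℕ, ∀ (n : ℕ) (A : Set (Fin n → S)) (w : Fin n → S),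
      w ∈ Subsemigroup.closure A → ∃ L : List (Fin n → S), Slp A L ∧ L.length ≤ p.eval n ∧
        w ∈ L := by
  obtain ⟨E, hE⟩ := exists_expo hS
  obtain ⟨p, hp⟩ := short_all hE (Nat.card S)
  refine ⟨p, fun n A w hw => ?_⟩
  obtain ⟨L, h1, h2, h3⟩ := hp (Fin n) A w hw (fun j => dp_le_card _)
  rw [List.append_nil] at h1 h3
  rw [Fintype.card_fin] at h2
  exact ⟨L, h1, h2, h3⟩

end Pool.Agent.H648R3.SMP
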