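import Pool.Agent.H648R3.SMP.Main
import Pool.Agent.H648R3.SMP.Defs
import Pool.Agent.NPC.Dec
import Pool.Agent.NPC.CookLevin3

/-!
# The subpower membership problem of a completely regular semigroup is in NP
-/

namespace Pool.Agent.NPC.SMP648

open Pool.Agent.NPC Pool.Agent.NPC.CL Pool.Agent.H648R3.SMP

section dec

variable {S : Type} [TEnc S]

theorem poly_find (l : List S) : Poly (fun t : T =>
    l.foldr (fun s acc => if toT s = t then some s else acc) none) := by
  induction l with
  | nil => exact Poly.const _
  | cons s l ih =>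
    simp only [List.foldr_cons]
    exact Poly.ite (p := fun t : T => toT s = t) (Poly.decide_eq (Poly.const _) Poly.id)
      (Poly.const _) ih

theorem find_toT (l : List S) (s : S) (hs : s ∈ l) :
    l.foldr (fun s' acc => if toT s' = toT s then some s' else acc) none = some s := by
  induction l with
  | nil => simp at hs
  | cons a l ih =>
    rw [List.foldr_cons]
    split_ifs with h
    · rw [TEnc.inj h]
    · rcases List.mem_cons.1 hs with rfl | hs
      · exact absurd rfl h
      · exact ih hs

theorem toT_find (l : List S) (t : T) (s : S)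
    (h : l.foldr (fun s' acc => if toT s' = t then some s' else acc) none = some s) :
    toT s = t := by
  induction l with
  | nil => simp at h
  | cons a l ih =>
    rw [List.foldr_cons] at h
    split_ifs at h with h1
    · cases h; exact h1
    · exact ih h

/-- Finite types are decodable. -/
@[instance_reducible] noncomputable def finDec [Fintype S] : TDec S where
  dec t := (Finset.univ : Finset S).toList.foldr
    (fun s acc => if toT s = t then some s else acc) none
  dec_toT s := find_toT _ s (by simp)
  toT_dec t s h := toT_find _ t s h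
  poly_dec := poly_find _

end dec

variable {S : Type} [Semigroup S] [TEnc S] [DecidableEq S]

/-- Componentwise product of lists. -/
def mulL (l l' : List S) : List S := (l.zip l').map (fun p => p.1 * p.2)

omit [TEnc S] in
theorem mulL_ofFn {n : ℕ} (a b : Fin n → S) :
    mulL (List.ofFn a) (List.ofFn b) = List.ofFn (a * b) := by
  apply List.ext_getElem
  · simp [mulL]
  · intro i h1 h2
    simp [mulL]

/-- One step of the verification of a straight-line program. -/
def cstep (A : List (List S)) (x : List S) (st : List (List S) × Bool) :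
    List (List S) × Bool :=
  (x :: st.1, st.2 && (A.any (fun a => decide (a = x)) ||
    st.1.any (fun y => st.1.any (fun z => decide (x = mulL y z)))))

theorem cstep_fst (A : List (List S)) (L : List (List S)) :
    (L.foldr (cstep A) ([], true)).1 = L := by
  induction L with
  | nil => rfl
  | cons x L ih => rw [List.foldr_cons, cstep, ih]

theorem cstep_iff {n : ℕ} (A : List (List S)) (L : List (Fin n → S)) :
    ((L.map List.ofFn).foldr (cstep A) ([], true)).2 = true ↔
      Slp {a : Fin n → S | List.ofFn a ∈ A} L := by
  induction L with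
  | nil => simp [Slp]
  | cons x L ih =>
    rw [List.map_cons, List.foldr_cons, cstep, cstep_fst]
    simp only [Bool.and_eq_true, Bool.or_eq_true, decide_eq_true_eq, List.any_eq_true,
      List.mem_map, ih, Slp, Set.mem_ofPred_eq, exists_eq_right]
    refine and_congr_right fun _ => or_congr_right ?_
    constructor
    · rintro ⟨_, ⟨y, hy, rfl⟩, _, ⟨z, hz, rfl⟩, h⟩
      rw [mulL_ofFn] at h
      exact ⟨y, hy, z, hz, List.ofFn_injective h⟩
    · rintro ⟨y, hy, z, hz, rfl⟩
      exact ⟨_, ⟨y, hy, rfl⟩, _, ⟨z, hz, rfl⟩, by rw [mulL_ofFn]⟩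

/-- The verifier. -/
def verify (p : ((ℕ × List (List S)) × List S) × List (List S)) : Bool :=
  (p.1.1.2.all (fun a => decide (a.length = p.1.1.1))) &&
    ((p.2.all (fun a => decide (a.length = p.1.1.1))) &&
      (p.2.any (fun a => decide (a = p.1.2)) && (p.2.foldr (cstep p.1.1.2) ([], true)).2))

theorem exists_ofFn {n : ℕ} {l : List S} (h : l.length = n) : ∃ a : Fin n → S, l = List.ofFn a := by
  subst h
  exact ⟨fun i => l[i], by simp⟩

theorem exists_map_ofFn {n : ℕ} (L : List (List S)) (h : ∀ l ∈ L, l.length = n) :
    ∃ L' : List (Fin n → S), L = L'.map List.ofFn := by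
  induction L with
  | nil => exact ⟨[], rfl⟩
  | cons l L ih =>
    obtain ⟨L', hL'⟩ := ih fun l hl => h l (List.mem_cons_of_mem _ hl)
    obtain ⟨a, ha⟩ := exists_ofFn (h l (by simp))
    exact ⟨a :: L', by rw [List.map_cons, ← hL', ha]⟩

omit [DecidableEq S] in
theorem poly_mulL [Finite S] : Poly (fun p : List S × List S => mulL p.1 p.2) := by
  have : Fintype S := Fintype.ofFinite S
  exact Poly.map (F := fun (_ : List S × List S) (q : S × S) => q.1 * q.2)
    (Poly.zip (Poly.fst Poly.id) (Poly.snd Poly.id))
    ((polyOfFintype (fun q : S × S => q.1 * q.2)).comp (Poly.snd Poly.id))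

theorem poly_cstep [Finite S] : Poly (fun p : List (List S) × List S × (List (List S) × Bool) =>
    cstep p.1 p.2.1 p.2.2) := by
  have h1 : Poly (fun p : List (List S) × List S × (List (List S) × Bool) =>
      p.2.2.1.any (fun y => p.2.2.1.any (fun z => decide (p.2.1 = mulL y z)))) := by
    refine Poly.any (p := fun (p : List (List S) × List S × (List (List S) × Bool)) y =>
      p.2.2.1.any (fun z => decide (p.2.1 = mulL y z))) (Poly.fst (Poly.snd (Poly.snd Poly.id))) ?_
    refine Poly.any (p := fun (p : (List (List S) × List S × (List (List S) × Bool)) × List S) z =>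
      decide (p.1.2.1 = mulL p.2 z)) (Poly.fst (Poly.snd (Poly.snd (Poly.fst Poly.id)))) ?_
    exact Poly.decide_eq (Poly.fst (Poly.snd (Poly.fst (Poly.fst Poly.id))))
      (poly_mulL.comp (Poly.pair (Poly.snd (Poly.fst Poly.id)) (Poly.snd Poly.id)))
  have h2 : Poly (fun p : List (List S) × List S × (List (List S) × Bool) =>
      p.1.any (fun a => decide (a = p.2.1))) :=
    Poly.any (p := fun (p : List (List S) × List S × (List (List S) × Bool)) a =>
      decide (a = p.2.1)) (Poly.fst Poly.id)
      (Poly.decide_eq (Poly.snd Poly.id) (Poly.fst (Poly.snd (Poly.fst Poly.id))))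
  exact Poly.pair (Poly.cons (Poly.fst (Poly.snd Poly.id))
    (Poly.fst (Poly.snd (Poly.snd Poly.id))))
    (Poly.and (Poly.snd (Poly.snd (Poly.snd Poly.id))) (Poly.or h2 h1))

theorem poly_verify [Finite S] : Poly (verify (S := S)) := by
  have h1 : Poly (fun p : ((ℕ × List (List S)) × List S) × List (List S) =>
      p.1.1.2.all (fun a => decide (a.length = p.1.1.1))) :=
    Poly.all (p := fun (p : ((ℕ × List (List S)) × List S) × List (List S)) a =>
      decide (a.length = p.1.1.1)) (Poly.snd (Poly.fst (Poly.fst Poly.id)))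
      (Poly.decide_eq (Poly.length (Poly.snd Poly.id))
        (Poly.fst (Poly.fst (Poly.fst (Poly.fst Poly.id)))))
  have h2 : Poly (fun p : ((ℕ × List (List S)) × List S) × List (List S) =>
      p.2.all (fun a => decide (a.length = p.1.1.1))) :=
    Poly.all (p := fun (p : ((ℕ × List (List S)) × List S) × List (List S)) a =>
      decide (a.length = p.1.1.1)) (Poly.snd Poly.id)
      (Poly.decide_eq (Poly.length (Poly.snd Poly.id))
        (Poly.fst (Poly.fst (Poly.fst (Poly.fst Poly.id)))))
  have h3 : Poly (fun p : ((ℕ × List (List S)) × List S) × List (List S) =>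
      p.2.any (fun a => decide (a = p.1.2))) :=
    Poly.any (p := fun (p : ((ℕ × List (List S)) × List S) × List (List S)) a =>
      decide (a = p.1.2)) (Poly.snd Poly.id)
      (Poly.decide_eq (Poly.snd Poly.id) (Poly.snd (Poly.fst (Poly.fst Poly.id))))
  have h4 : Poly (fun p : ((ℕ × List (List S)) × List S) × List (List S) =>
      p.2.foldr (cstep p.1.1.2) ([], true)) := by
    refine Poly.foldr (F := fun (p : ((ℕ × List (List S)) × List S) × List (List S)) x st =>
      cstep p.1.1.2 x st) (Poly.snd Poly.id) (Poly.const _)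
      (poly_cstep.comp (Poly.pair (Poly.snd (Poly.fst (Poly.fst (Poly.fst Poly.id))))
        (Poly.pair (Poly.fst (Poly.snd Poly.id)) (Poly.snd (Poly.snd Poly.id)))))
      (Polynomial.X + Polynomial.C 4) ?_
    intro p k _
    have e1 : (((p.2.drop k).foldr (cstep p.1.1.2) ([], true))).1 = p.2.drop k := cstep_fst _ _
    have e2 : sz (((p.2.drop k).foldr (cstep p.1.1.2) ([], true))) =
        sz (((p.2.drop k).foldr (cstep p.1.1.2) ([], true))).1 +
          sz (((p.2.drop k).foldr (cstep p.1.1.2) ([], true))).2 + 1 := by
      exact sz_pair _ _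
    have e3 := Poly.sz_drop_le p.2 k
    have e4 := sz_bool_le (((p.2.drop k).foldr (cstep p.1.1.2) ([], true))).2
    have e5 : sz p = sz p.1 + sz p.2 + 1 := by
      exact sz_pair _ _
    rw [e2, e1]
    simp only [Polynomial.eval_add, Polynomial.eval_X, Polynomial.eval_C]
    omega
  exact Poly.and h1 (Poly.and h2 (Poly.and h3 (Poly.snd h4)))

/-- **The subpower membership problem of a finite completely regular semigroup is in `NP`.** -/
theorem smp_inNPP [Finite S] (hS : CompletelyRegular S) : InNPP (SMP S) := by
  classical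
  have : Fintype S := Fintype.ofFinite S
  let _ : TDec S := finDec
  obtain ⟨p, hp⟩ := short_programs S hS
  obtain ⟨c, hc⟩ : ∃ c, ∀ s : S, sz s ≤ c :=
    ⟨Finset.univ.sup (fun s : S => sz s), fun s => Finset.le_sup (f := fun s : S => sz s)
      (Finset.mem_univ s)⟩
  refine inNPP_of (β := List (List S)) poly_verify
    (p * (Polynomial.X * Polynomial.C (c + 1) + 2) + 1) ?_
  rintro ⟨⟨n, A⟩, b⟩
  constructor
  · rintro ⟨hA, w, hw, hmem⟩
    simp only at hA w hw hmem
    obtain ⟨L, hL, hLc, hwL⟩ := hp n _ w hmem
    refine ⟨L.map List.ofFn, ?_, ?_⟩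
    · have e1 : ∀ l ∈ L.map (List.ofFn (n := n) (α := S)), sz l ≤ n * (c + 1) + 1 := by
        intro l hl
        obtain ⟨a, _, rfl⟩ := List.mem_map.1 hl
        have := sz_le_length_mul (List.ofFn a) c (fun s _ => hc s)
        rwa [List.length_ofFn] at this
      have e2 := sz_le_length_mul _ _ e1
      rw [List.length_map] at e2
      have e3 : n ≤ sz ((n, A), b) := by
        have e4 := length_lt_sz b
        have e5 : b.length = n := by rw [hw, List.length_ofFn]
        rw [sz_pair]
        omega
      refine e2.trans ?_
      simp only [Polynomial.eval_add, Polynomial.eval_mul, Polynomial.eval_X, Polynomial.eval_C,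
        Polynomial.eval_ofNat, Polynomial.eval_one]
      have e6 : p.eval n ≤ p.eval (sz ((n, A), b)) := eval_mono p e3
      have e7 : n * (c + 1) + 1 + 1 ≤ sz ((n, A), b) * (c + 1) + 2 := by
        have := Nat.mul_le_mul_right (c + 1) e3
        omega
      exact Nat.add_le_add_right (Nat.mul_le_mul (hLc.trans e6) e7) 1
    · simp only [verify, Bool.and_eq_true, List.all_eq_true, decide_eq_true_eq]
      refine ⟨hA, ?_, ?_, (cstep_iff A L).2 hL⟩
      · intro l hl
        obtain ⟨a, _, rfl⟩ := List.mem_map.1 hl
        rw [List.length_ofFn]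
      · rw [hw, List.any_eq_true]
        exact ⟨_, List.mem_map_of_mem hwL, by simp⟩
  · rintro ⟨L, _, hL⟩
    simp only [verify, Bool.and_eq_true, List.all_eq_true, decide_eq_true_eq] at hL
    obtain ⟨hA, hlen, hb, hchk⟩ := hL
    rw [List.any_eq_true] at hb
    obtain ⟨b', hb, hb'⟩ := hb
    rw [decide_eq_true_eq] at hb'
    subst hb'
    obtain ⟨L', rfl⟩ := exists_map_ofFn L hlen
    have h1 := (cstep_iff A L').1 hchk
    obtain ⟨w, hw, hwb⟩ := List.mem_map.1 hb
    refine ⟨hA, w, hwb.symm, ?_⟩
    exact Slp.closure (T := (Subsemigroup.closure {a : Fin n → S | List.ofFn a ∈ A} :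
      Set (Fin n → S))) Subsemigroup.subset_closure (fun x hx y hy => mul_mem hx hy) h1 w hw

end Pool.Agent.NPC.SMP648
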