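import Mathlib

/-!
# Completely regular semigroups of finite exponent

Green's relations in semigroups satisfying `a ^ (E + 3) = a`.
-/

namespace Pool.Agent.H648R3.SMP

/-- `spow a n = a ^ (n + 1)`. -/
def spow {M : Type} [Mul M] (a : M) : ℕ → M
  | 0 => a
  | n + 1 => spow a n * a

variable {S : Type} [Semigroup S]

theorem spow_zero (a : S) : spow a 0 = a := rfl

theorem spow_succ (a : S) (n : ℕ) : spow a (n + 1) = spow a n * a := rfl

theorem spow_succ' (a : S) : ∀ n : ℕ, spow a (n + 1) = a * spow a n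
  | 0 => rfl
  | n + 1 => by
    rw [spow_succ, spow_succ' a n, mul_assoc, ← spow_succ, spow_succ' a n]

theorem spow_add (a : S) (m : ℕ) : ∀ n : ℕ, spow a m * spow a n = spow a (m + n + 1)
  | 0 => rfl
  | n + 1 => by
    rw [spow_succ, ← mul_assoc, spow_add a m n, ← spow_succ]
    rfl

theorem spow_apply {ι : Type} (f : ι → S) (n : ℕ) (j : ι) : spow f n j = spow (f j) n := by
  induction n with
  | zero => rfl
  | succ n ih => rw [spow_succ, spow_succ, Pi.mul_apply, ih]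

/-- `b` lies in the ideal generated by `a`. -/
def Ab (a b : S) : Prop := ∃ x y : S, b = x * a * y

/-- Green's relation `R`. -/
def Rr (p q : S) : Prop := (∃ x, p * x = q) ∧ ∃ y, q * y = p

/-- Green's relation `L`. -/
def Lr (p q : S) : Prop := (∃ x, x * p = q) ∧ ∃ y, y * q = p

/-- The semigroup satisfies `a ^ (E + 3) = a`. -/
def Expo (S : Type) [Semigroup S] (E : ℕ) : Prop := ∀ a : S, spow a (E + 2) = a

theorem Expo.pi {E : ℕ} (h : Expo S E) (ι : Type) : Expo (ι → S) E := by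
  intro a
  funext j
  rw [spow_apply, h]

variable {E : ℕ}

theorem Expo.mul_idm (h : Expo S E) (a : S) : a * spow a (E + 1) = a := by
  rw [← spow_succ']
  exact h a

theorem Expo.idm_mul (h : Expo S E) (a : S) : spow a (E + 1) * a = a := h a

theorem Expo.idm_idem (h : Expo S E) (a : S) :
    spow a (E + 1) * spow a (E + 1) = spow a (E + 1) := by
  have h1 : spow a (E + 1) * spow a (E + 1) = spow a E * (a * spow a (E + 1)) := by
    rw [← mul_assoc, ← spow_succ]
  rw [h1, h.mul_idm a, ← spow_succ]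

theorem Expo.ab_refl (h : Expo S E) (a : S) : Ab a a := ⟨spow a E, a, (h a).symm⟩

theorem Ab.trans {a b c : S} (h : Ab a b) (h' : Ab b c) : Ab a c := by
  obtain ⟨x, y, rfl⟩ := h
  obtain ⟨z, w, rfl⟩ := h'
  exact ⟨z * x, y * w, by simp only [mul_assoc]⟩

theorem Expo.ab_left (h : Expo S E) (a b : S) : Ab a (a * b) := by
  refine ⟨spow a E, a * b, ?_⟩
  have h1 : spow a E * a * a = a := h a
  rw [← mul_assoc, h1]

theorem Expo.ab_right (h : Expo S E) (a b : S) : Ab b (a * b) := by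
  refine ⟨a * spow b E, b, ?_⟩
  have h1 : spow b E * b * b = b := h b
  rw [mul_assoc a, mul_assoc a, h1]

theorem Expo.triple (h : Expo S E) (c : S) : spow c E * c * c = c := h c

theorem Expo.ab_comm (h : Expo S E) (a b : S) : Ab (a * b) (b * a) := by
  refine ⟨spow (b * a) E * b, a, ?_⟩
  have h1 := h.triple (b * a)
  calc b * a = spow (b * a) E * (b * a) * (b * a) := h1.symm
    _ = _ := by simp only [mul_assoc]

theorem Expo.ab_insert (h : Expo S E) (a s b : S) : Ab (a * b) (a * s * b) := by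
  refine (h.ab_comm a b).trans ⟨spow (a * s * b) E * (a * s), s * b, ?_⟩
  have h1 := h.triple (a * s * b)
  calc a * s * b = spow (a * s * b) E * (a * s * b) * (a * s * b) := h1.symm
    _ = _ := by simp only [mul_assoc]

theorem Expo.ab_mul (h : Expo S E) {a b c : S} (ha : Ab a c) (hb : Ab b c) : Ab (a * b) c := by
  obtain ⟨x, y, h1⟩ := ha
  obtain ⟨z, w, h2⟩ := hb
  refine (h.ab_insert a (y * z) b).trans ⟨spow c E * x, w, ?_⟩
  calc c = spow c E * c * c := (h.triple c).symm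
    _ = spow c E * (x * a * y) * (z * b * w) := by rw [← h1, ← h2]
    _ = _ := by simp only [mul_assoc]

theorem iter_sandwich {x b u : S} (hb : b = x * b * u) : ∀ n, b = spow x n * b * spow u n
  | 0 => hb
  | n + 1 => by
    rw [spow_succ, spow_succ']
    calc b = spow x n * b * spow u n := iter_sandwich hb n
      _ = spow x n * (x * b * u) * spow u n := by rw [← hb]
      _ = _ := by simp only [mul_assoc]

theorem Expo.stab_right (h : Expo S E) {a b : S} (hab : Ab a b) : ∃ x, b * a * x = b := by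
  obtain ⟨x, y, hxy⟩ := h.ab_mul (h.ab_refl b) hab
  have h1 : b = x * b * (a * y) := by
    calc b = x * (b * a) * y := hxy
      _ = _ := by simp only [mul_assoc]
  have h2 := iter_sandwich h1 (E + 1)
  have h3 : b * spow (a * y) (E + 1) = b := by
    conv_lhs => rw [h2, mul_assoc, h.idm_idem]
    exact h2.symm
  refine ⟨y * spow (a * y) E, ?_⟩
  calc b * a * (y * spow (a * y) E) = b * (a * y * spow (a * y) E) := by simp only [mul_assoc]
    _ = b * spow (a * y) (E + 1) := by rw [spow_succ']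
    _ = b := h3

theorem Expo.stab_left (h : Expo S E) {a b : S} (hab : Ab a b) : ∃ x, x * (a * b) = b := by
  obtain ⟨x, y, hxy⟩ := h.ab_mul hab (h.ab_refl b)
  have h1 : b = (x * a) * b * y := by
    calc b = x * (a * b) * y := hxy
      _ = _ := by simp only [mul_assoc]
  have h2 := iter_sandwich h1 (E + 1)
  have h3 : spow (x * a) (E + 1) * b = b := by
    conv_lhs => rw [h2, mul_assoc (spow (x * a) (E + 1)) b, ← mul_assoc, h.idm_idem, ← mul_assoc]
    exact h2.symm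
  refine ⟨spow (x * a) E * x, ?_⟩
  calc spow (x * a) E * x * (a * b) = (spow (x * a) E * (x * a)) * b := by simp only [mul_assoc]
    _ = spow (x * a) (E + 1) * b := by rw [spow_succ]
    _ = b := h3

/-! ### `R` -/

theorem Expo.rr_refl (h : Expo S E) (p : S) : Rr p p := ⟨⟨_, h.mul_idm p⟩, ⟨_, h.mul_idm p⟩⟩

theorem Rr.symm {p q : S} (h : Rr p q) : Rr q p := ⟨h.2, h.1⟩

theorem Rr.trans {p q r : S} (h : Rr p q) (h' : Rr q r) : Rr p r := by
  obtain ⟨⟨x, rfl⟩, ⟨y, hy⟩⟩ := h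
  obtain ⟨⟨z, rfl⟩, ⟨w, hw⟩⟩ := h'
  exact ⟨⟨x * z, by simp only [mul_assoc]⟩, ⟨w * y, by rw [← mul_assoc, hw, hy]⟩⟩

theorem Rr.mul_left {p q : S} (h : Rr p q) (z : S) : Rr (z * p) (z * q) := by
  obtain ⟨⟨x, hx⟩, ⟨y, hy⟩⟩ := h
  exact ⟨⟨x, by rw [mul_assoc, hx]⟩, ⟨y, by rw [mul_assoc, hy]⟩⟩

theorem Expo.rr_ab (h : Expo S E) {p q : S} (hr : Rr p q) : Ab p q := by
  obtain ⟨⟨x, rfl⟩, _⟩ := hr
  exact h.ab_left p x

theorem Expo.rr_mul (h : Expo S E) {a p : S} (ha : Ab a p) : Rr (p * a) p := by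
  obtain ⟨x, hx⟩ := h.stab_right ha
  exact ⟨⟨x, hx⟩, ⟨a, rfl⟩⟩

theorem Expo.rr_idm (h : Expo S E) {p q : S} (hr : Rr p q) : spow p (E + 1) * q = q := by
  obtain ⟨⟨x, rfl⟩, _⟩ := hr
  rw [← mul_assoc, h.idm_mul]

/-! ### `L` -/

theorem Expo.lr_refl (h : Expo S E) (p : S) : Lr p p := ⟨⟨_, h.idm_mul p⟩, ⟨_, h.idm_mul p⟩⟩

theorem Lr.symm {p q : S} (h : Lr p q) : Lr q p := ⟨h.2, h.1⟩

theorem Lr.trans {p q r : S} (h : Lr p q) (h' : Lr q r) : Lr p r := by
  obtain ⟨⟨x, rfl⟩, ⟨y, hy⟩⟩ := h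
  obtain ⟨⟨z, rfl⟩, ⟨w, hw⟩⟩ := h'
  exact ⟨⟨z * x, by simp only [mul_assoc]⟩, ⟨y * w, by rw [mul_assoc, hw, hy]⟩⟩

theorem Lr.mul_right {p q : S} (h : Lr p q) (z : S) : Lr (p * z) (q * z) := by
  obtain ⟨⟨x, hx⟩, ⟨y, hy⟩⟩ := h
  exact ⟨⟨x, by rw [← mul_assoc, hx]⟩, ⟨y, by rw [← mul_assoc, hy]⟩⟩

theorem Expo.lr_ab (h : Expo S E) {p q : S} (hr : Lr p q) : Ab p q := by
  obtain ⟨⟨x, rfl⟩, _⟩ := hr
  exact h.ab_right x p

theorem Expo.lr_mul (h : Expo S E) {a p : S} (ha : Ab a p) : Lr (a * p) p := by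
  obtain ⟨x, hx⟩ := h.stab_left ha
  exact ⟨⟨x, hx⟩, ⟨a, rfl⟩⟩

theorem Expo.lr_idm (h : Expo S E) {p q : S} (hr : Lr p q) : q * spow p (E + 1) = q := by
  obtain ⟨⟨x, rfl⟩, _⟩ := hr
  rw [mul_assoc, h.mul_idm]

/-! ### Pointwise description in powers -/

theorem ab_pi {ι : Type} {p q : ι → S} : Ab p q ↔ ∀ j, Ab (p j) (q j) := by
  constructor
  · rintro ⟨x, y, rfl⟩ j
    exact ⟨x j, y j, rfl⟩
  · intro h
    choose x y hxy using h
    exact ⟨x, y, funext hxy⟩

theorem rr_pi {ι : Type} {p q : ι → S} : Rr p q ↔ ∀ j, Rr (p j) (q j) := by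
  constructor
  · rintro ⟨⟨x, hx⟩, ⟨y, hy⟩⟩ j
    exact ⟨⟨x j, congrFun hx j⟩, ⟨y j, congrFun hy j⟩⟩
  · intro h
    choose x hx using fun j => (h j).1
    choose y hy using fun j => (h j).2
    exact ⟨⟨x, funext hx⟩, ⟨y, funext hy⟩⟩

theorem lr_pi {ι : Type} {p q : ι → S} : Lr p q ↔ ∀ j, Lr (p j) (q j) := by
  constructor
  · rintro ⟨⟨x, hx⟩, ⟨y, hy⟩⟩ j
    exact ⟨⟨x j, congrFun hx j⟩, ⟨y j, congrFun hy j⟩⟩
  · intro h
    choose x hx using fun j => (h j).1
    choose y hy using fun j => (h j).2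
    exact ⟨⟨x, funext hx⟩, ⟨y, funext hy⟩⟩

/-! ### Groups -/

theorem Expo.rr_spow (h : Expo S E) (p : S) : ∀ n, Rr (spow p n) p
  | 0 => h.rr_refl p
  | n + 1 => (h.rr_mul (h.rr_ab (h.rr_spow p n).symm)).trans (h.rr_spow p n)

theorem Expo.lr_spow (h : Expo S E) (p : S) : ∀ n, Lr (spow p n) p
  | 0 => h.lr_refl p
  | n + 1 => h.lr_mul (h.lr_ab (h.lr_spow p n))

/-- In the group `H`-class of an idempotent `e`, the idempotent power is `e`. -/
theorem Expo.idm_eq (h : Expo S E) {x e : S} (he : e * e = e) (hr : Rr x e) (hl : Lr x e) :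
    spow x (E + 1) = e := by
  have h1 : e * spow x (E + 1) = e := h.lr_idm hl
  have h2 : e * x = x := by
    obtain ⟨_, ⟨y, hy⟩⟩ := hr
    rw [← hy, ← mul_assoc, he]
  have h3 : e * spow x (E + 1) = spow x (E + 1) := by
    rw [spow_succ', ← mul_assoc, h2]
  rw [← h3, h1]

theorem rr_unit_left {x e : S} (he : e * e = e) (hr : Rr x e) : e * x = x := by
  obtain ⟨_, ⟨y, hy⟩⟩ := hr
  rw [← hy, ← mul_assoc, he]

theorem lr_unit_right {x e : S} (he : e * e = e) (hr : Lr x e) : x * e = x := by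
  obtain ⟨_, ⟨y, hy⟩⟩ := hr
  rw [← hy, mul_assoc, he]

/-! ### Depth -/

/-- The number of elements `J`-above `s`. -/
noncomputable def dp (s : S) : ℕ := Set.ncard {x : S | Ab x s}

theorem dp_le_card [Finite S] (s : S) : dp s ≤ Nat.card S := by
  unfold dp
  rw [← Set.ncard_univ]
  exact Set.ncard_le_ncard (Set.subset_univ _) (Set.toFinite _)

theorem dp_mono [Finite S] {a b : S} (h : Ab a b) : dp a ≤ dp b :=
  Set.ncard_le_ncard (fun _ hx => Ab.trans hx h) (Set.toFinite _)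

theorem Expo.dp_lt [Finite S] (hE : Expo S E) {a b : S} (h : Ab a b) (h' : ¬ Ab b a) :
    dp a < dp b := by
  refine Set.ncard_lt_ncard ⟨fun _ hx => Ab.trans hx h, fun hs => h' (hs (hE.ab_refl b))⟩
    (Set.toFinite _)

theorem Expo.dp_pos [Finite S] (hE : Expo S E) (a : S) : 0 < dp a :=
  (Set.ncard_pos (Set.toFinite _)).2 ⟨a, hE.ab_refl a⟩

/-! ### Existence of the exponent -/

theorem exists_period [Finite S] {a x : S} (h1 : a = a * x * a) (h2 : a * x = x * a) :
    ∃ p, spow a (p + 1) = a := by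
  have key : ∀ n, x * (a * spow a n) = spow a n := by
    intro n
    induction n with
    | zero =>
      change x * (a * a) = a
      rw [← mul_assoc, ← h2]
      exact h1.symm
    | succ n ih => rw [spow_succ, ← mul_assoc a, ← mul_assoc x, ih]
  have key2 : ∀ i j, spow a i = spow a (i + j + 1) → a = spow a (j + 1) := by
    intro i
    induction i with
    | zero => intro j hj; rw [Nat.zero_add] at hj; exact hj
    | succ i ih =>
      intro j hj
      apply ih
      have h3 : x * spow a (i + 1) = x * spow a (i + 1 + j + 1) := congrArg (fun t => x * t) hj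
      rw [spow_succ' a i, key, show i + 1 + j + 1 = (i + j + 1) + 1 by ring, spow_succ', key] at h3
      exact h3
  obtain ⟨i, j, hij, he⟩ := Finite.exists_ne_map_eq_of_infinite (fun n : ℕ => spow a n)
  rcases Nat.lt_or_gt_of_ne hij with h | h
  · obtain ⟨k, rfl⟩ := Nat.exists_eq_add_of_lt h
    exact ⟨k, (key2 i k he).symm⟩
  · obtain ⟨k, rfl⟩ := Nat.exists_eq_add_of_lt h
    exact ⟨k, (key2 j k he.symm).symm⟩

theorem spow_period {a : S} {p : ℕ} (h : spow a (p + 1) = a) : ∀ m, spow a (m * (p + 1)) = a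
  | 0 => by rw [Nat.zero_mul]; rfl
  | m + 1 => by
    have h1 := spow_period h m
    rw [show (m + 1) * (p + 1) = m * (p + 1) + p + 1 by ring, ← spow_add, h1, ← spow_succ']
    exact h

theorem exists_expo [Finite S] (h : ∀ a : S, ∃ x : S, a = a * x * a ∧ a * x = x * a) :
    ∃ E, Expo S E := by
  have : Fintype S := Fintype.ofFinite S
  have h1 : ∀ a : S, ∃ p, spow a (p + 1) = a := fun a => by
    obtain ⟨x, hx, hx'⟩ := h a
    exact exists_period hx hx'
  choose p hp using h1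
  have hN : 0 < ∏ a : S, (p a + 1) := Finset.prod_pos fun a _ => Nat.succ_pos _
  refine ⟨2 * ∏ a : S, (p a + 1) - 2, fun a => ?_⟩
  obtain ⟨m, hm⟩ : (p a + 1) ∣ 2 * ∏ a : S, (p a + 1) :=
    Dvd.dvd.mul_left (Finset.dvd_prod_of_mem _ (Finset.mem_univ a)) 2
  rw [show 2 * ∏ a : S, (p a + 1) - 2 + 2 = 2 * ∏ a : S, (p a + 1) by omega, hm, mul_comm]
  exact spow_period (hp a) m

end Pool.Agent.H648R3.SMP
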