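import Pool.Agent.H648R3.SMP.Slp

/-!
# Reaching `R`-classes and `L`-classes
-/

namespace Pool.Agent.H648R3.SMP

/-- Elements of depth at most `δ` of subpowers have straight-line programs of length bounded by `f`
applied to the number of coordinates. -/
def Short (S : Type) [Semigroup S] (δ : ℕ) (f : ℕ → ℕ) : Prop :=
  ∀ (ι : Type) [Fintype ι] (A : Set (ι → S)) (w : ι → S), w ∈ Subsemigroup.closure A →
    (∀ j, dp (w j) ≤ δ) → Reach A (f (Fintype.card ι)) w

theorem closure_image {M N : Type} [Semigroup M] [Semigroup N] {A : Set M} {φ : M → N}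
    (hφ : ∀ x y, φ (x * y) = φ x * φ y) {x : M} (hx : x ∈ Subsemigroup.closure A) :
    φ x ∈ Subsemigroup.closure (φ '' A) := by
  induction hx using Subsemigroup.closure_induction with
  | mem x hx => exact Subsemigroup.subset_closure ⟨x, hx, rfl⟩
  | mul x y _ _ hx hy => rw [hφ]; exact mul_mem hx hy

variable {S : Type} [Semigroup S] [Finite S] {E : ℕ}

theorem rpart (hE : Expo S E) {δ : ℕ} {f : ℕ → ℕ} (hf : Monotone f) (hP : Short S δ f)
    {ι : Type} [Fintype ι] {A : Set (ι → S)} {x : ι → S} (hx : WordR A x)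
    (hd : ∀ j, dp (x j) ≤ δ + 1) :
    ∃ r, Rr r x ∧ Reach A ((f (Fintype.card ι) + 3) * ∑ j, dp (x j) + 1) r := by
  have hEι := hE.pi ι
  induction hx with
  | base ha => exact ⟨_, hEι.rr_refl _, Within.mono (Reach.of_mem ha) (by omega)⟩
  | @snoc x a hx ha ih =>
    have hab : Ab x (x * a) := hEι.ab_left x a
    have hdp : ∀ j, dp (x j) ≤ dp ((x * a) j) := fun j => dp_mono (ab_pi.1 hab j)
    obtain ⟨r, hr, hrc⟩ := ih (fun j => (hdp j).trans (hd j))
    classical
    by_cases hC : ∀ j, Rr (x j) ((x * a) j)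
    · refine ⟨r, hr.trans (rr_pi.2 hC), Within.mono hrc ?_⟩
      gcongr with j _
      exact hdp j
    · push Not at hC
      obtain ⟨j₀, hj₀⟩ := hC
      have hlt : ∀ j, ¬ Rr (x j) ((x * a) j) → dp (x j) < dp ((x * a) j) := by
        intro j hj
        refine hE.dp_lt (ab_pi.1 hab j) fun h => hj ?_
        exact (hE.rr_mul ((hE.ab_right (x j) (a j)).trans h)).symm
      let C : Type := {j : ι // ¬ Rr (x j) ((x * a) j)}
      let φ : (ι → S) → (C → S) := fun g j => g j.1
      have hφ : ∀ x y, φ (x * y) = φ x * φ y := fun _ _ => rfl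
      let A₁ : Set (ι → S) := {b | b ∈ A ∧ Ab b x}
      have hrx : Ab r x := hEι.rr_ab hr
      have hrA : r ∈ Subsemigroup.closure A₁ := hEι.closure_above hrc.mem_closure hrx
      have hxA : x ∈ Subsemigroup.closure A₁ := hEι.closure_above hx.mem (hEι.ab_refl x)
      have hvA : spow r E * x ∈ Subsemigroup.closure A₁ := mul_mem (spow_mem hrA E) hxA
      have hvx : Ab (spow r E * x) x :=
        hEι.ab_mul ((hEι.rr_ab (hEι.rr_spow r E)).trans hrx) (hEι.ab_refl x)
      have h1 : Reach (φ '' A₁) (f (Fintype.card C)) (φ (spow r E * x)) := by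
        refine hP C (φ '' A₁) _ (closure_image hφ hvA) fun j => ?_
        have h2 := hlt j.1 j.2
        have h3 := hd j.1
        have h4 : dp ((spow r E * x) j.1) ≤ dp (x j.1) := dp_mono (ab_pi.1 hvx j.1)
        exact Nat.le_of_lt_succ (lt_of_le_of_lt h4 (lt_of_lt_of_le h2 h3))
      obtain ⟨y, hy, hyv⟩ := Reach.lift hφ h1
      have hyx : Ab y x := hEι.above_closure hy.mem_closure
      have hry : Rr (r * y) r := hEι.rr_mul (hyx.trans (hEι.rr_ab hr.symm))
      have hryx : Rr (r * y) x := hry.trans hr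
      refine ⟨r * y * a, rr_pi.2 fun j => ?_, ?_⟩
      · by_cases hj : Rr (x j) ((x * a) j)
        · have h2 : Ab (a j) (x j) := (hE.ab_right (x j) (a j)).trans (hE.rr_ab hj.symm)
          have h3 : Rr ((r * y) j) (x j) := rr_pi.1 hryx j
          exact ((hE.rr_mul (h2.trans (hE.rr_ab h3.symm))).trans h3).trans hj
        · have h2 : y j = (spow r E * x) j := congrFun hyv ⟨j, hj⟩
          have h3 : r * (spow r E * x) = x := by
            rw [← mul_assoc, ← spow_succ', hEι.rr_idm hr]
          have h4 : (r * y * a) j = (x * a) j := by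
            calc (r * y * a) j = r j * y j * a j := rfl
              _ = (r * (spow r E * x)) j * a j := by rw [h2]; rfl
              _ = (x * a) j := by rw [h3]; rfl
          rw [h4]
          exact hE.rr_refl _
      · have hy' : Reach A (f (Fintype.card C)) y := Within.mono_set (fun b hb => hb.1) hy
        refine Within.mono ((Within.mul (Within.mul hrc hy') (Reach.of_mem ha))) ?_
        have h5 : f (Fintype.card C) ≤ f (Fintype.card ι) := hf (Fintype.card_subtype_le _)
        have h6 : ∑ j, dp (x j) + 1 ≤ ∑ j, dp ((x * a) j) :=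
          Finset.sum_lt_sum (fun j _ => hdp j) ⟨j₀, Finset.mem_univ _, hlt j₀ hj₀⟩
        have h7 := Nat.mul_le_mul_left (f (Fintype.card ι) + 3) h6
        rw [Nat.mul_add, Nat.mul_one] at h7
        omega

theorem lpart (hE : Expo S E) {δ : ℕ} {f : ℕ → ℕ} (hf : Monotone f) (hP : Short S δ f)
    {ι : Type} [Fintype ι] {A : Set (ι → S)} {x : ι → S} (hx : WordL A x)
    (hd : ∀ j, dp (x j) ≤ δ + 1) :
    ∃ r, Lr r x ∧ Reach A ((f (Fintype.card ι) + 3) * ∑ j, dp (x j) + 1) r := by
  have hEι := hE.pi ι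
  induction hx with
  | base ha => exact ⟨_, hEι.lr_refl _, Within.mono (Reach.of_mem ha) (by omega)⟩
  | @cons x a ha hx ih =>
    have hab : Ab x (a * x) := hEι.ab_right a x
    have hdp : ∀ j, dp (x j) ≤ dp ((a * x) j) := fun j => dp_mono (ab_pi.1 hab j)
    obtain ⟨r, hr, hrc⟩ := ih (fun j => (hdp j).trans (hd j))
    classical
    by_cases hC : ∀ j, Lr (x j) ((a * x) j)
    · refine ⟨r, hr.trans (lr_pi.2 hC), Within.mono hrc ?_⟩
      gcongr with j _
      exact hdp j
    · push Not at hC
      obtain ⟨j₀, hj₀⟩ := hC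
      have hlt : ∀ j, ¬ Lr (x j) ((a * x) j) → dp (x j) < dp ((a * x) j) := by
        intro j hj
        refine hE.dp_lt (ab_pi.1 hab j) fun h => hj ?_
        exact (hE.lr_mul ((hE.ab_left (a j) (x j)).trans h)).symm
      let C : Type := {j : ι // ¬ Lr (x j) ((a * x) j)}
      let φ : (ι → S) → (C → S) := fun g j => g j.1
      have hφ : ∀ x y, φ (x * y) = φ x * φ y := fun _ _ => rfl
      let A₁ : Set (ι → S) := {b | b ∈ A ∧ Ab b x}
      have hrx : Ab r x := hEι.lr_ab hr
      have hrA : r ∈ Subsemigroup.closure A₁ := hEι.closure_above hrc.mem_closure hrx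
      have hxA : x ∈ Subsemigroup.closure A₁ := hEι.closure_above hx.mem (hEι.ab_refl x)
      have hvA : x * spow r E ∈ Subsemigroup.closure A₁ := mul_mem hxA (spow_mem hrA E)
      have hvx : Ab (x * spow r E) x :=
        hEι.ab_mul (hEι.ab_refl x) ((hEι.lr_ab (hEι.lr_spow r E)).trans hrx)
      have h1 : Reach (φ '' A₁) (f (Fintype.card C)) (φ (x * spow r E)) := by
        refine hP C (φ '' A₁) _ (closure_image hφ hvA) fun j => ?_
        have h2 := hlt j.1 j.2
        have h3 := hd j.1
        have h4 : dp ((x * spow r E) j.1) ≤ dp (x j.1) := dp_mono (ab_pi.1 hvx j.1)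
        exact Nat.le_of_lt_succ (lt_of_le_of_lt h4 (lt_of_lt_of_le h2 h3))
      obtain ⟨y, hy, hyv⟩ := Reach.lift hφ h1
      have hyx : Ab y x := hEι.above_closure hy.mem_closure
      have hry : Lr (y * r) r := hEι.lr_mul (hyx.trans (hEι.lr_ab hr.symm))
      have hryx : Lr (y * r) x := hry.trans hr
      refine ⟨a * (y * r), lr_pi.2 fun j => ?_, ?_⟩
      · by_cases hj : Lr (x j) ((a * x) j)
        · have h2 : Ab (a j) (x j) := (hE.ab_left (a j) (x j)).trans (hE.lr_ab hj.symm)
          have h3 : Lr ((y * r) j) (x j) := lr_pi.1 hryx j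
          exact ((hE.lr_mul (h2.trans (hE.lr_ab h3.symm))).trans h3).trans hj
        · have h2 : y j = (x * spow r E) j := congrFun hyv ⟨j, hj⟩
          have h3 : x * spow r E * r = x := by
            rw [mul_assoc, ← spow_succ, hEι.lr_idm hr]
          have h4 : (a * (y * r)) j = (a * x) j := by
            calc (a * (y * r)) j = a j * (y j * r j) := rfl
              _ = a j * (x * spow r E * r) j := by rw [h2]; rfl
              _ = (a * x) j := by rw [h3]; rfl
          rw [h4]
          exact hE.lr_refl _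
      · have hy' : Reach A (f (Fintype.card C)) y := Within.mono_set (fun b hb => hb.1) hy
        refine Within.mono ((Within.mul (Reach.of_mem ha) (Within.mul hy' hrc))) ?_
        have h5 : f (Fintype.card C) ≤ f (Fintype.card ι) := hf (Fintype.card_subtype_le _)
        have h6 : ∑ j, dp (x j) + 1 ≤ ∑ j, dp ((a * x) j) :=
          Finset.sum_lt_sum (fun j _ => hdp j) ⟨j₀, Finset.mem_univ _, hlt j₀ hj₀⟩
        have h7 := Nat.mul_le_mul_left (f (Fintype.card ι) + 3) h6
        rw [Nat.mul_add, Nat.mul_one] at h7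
        omega

end Pool.Agent.H648R3.SMP
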