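import Pool.Agent.H648R3.SMP.Semi

/-!
# Straight-line programs in semigroups
-/

namespace Pool.Agent.H648R3.SMP

/-- A straight-line program over `A`, listed with its last value first: every value is in `A` or is
the product of two earlier values. -/
def Slp {M : Type} [Mul M] (A : Set M) : List M → Prop
  | [] => True
  | x :: L => Slp A L ∧ (x ∈ A ∨ ∃ y ∈ L, ∃ z ∈ L, x = y * z)

/-- `x` can be computed with at most `c` further instructions, starting from the program `L`. -/
def Within {M : Type} [Mul M] (A : Set M) (L : List M) (c : ℕ) (x : M) : Prop :=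
  ∃ L', Slp A (L' ++ L) ∧ L'.length ≤ c ∧ x ∈ L' ++ L

/-- `x` is computed by a straight-line program with at most `c` instructions. -/
def Reach {M : Type} [Mul M] (A : Set M) (c : ℕ) (x : M) : Prop := Within A [] c x

section

variable {M : Type} [Mul M] {A B : Set M}

theorem Slp.append {L₂ L : List M} : ∀ {L₁ : List M}, Slp A (L₁ ++ L) → Slp A (L₂ ++ L) →
    Slp A (L₁ ++ (L₂ ++ L))
  | [], _, h => h
  | x :: L₁, h, h' => by
    obtain ⟨h1, h2⟩ := h
    refine ⟨Slp.append h1 h', ?_⟩
    rcases h2 with h2 | ⟨y, hy, z, hz, rfl⟩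
    · exact Or.inl h2
    · have hy' : y ∈ L₁ ++ L := hy
      have hz' : z ∈ L₁ ++ L := hz
      refine Or.inr ⟨y, ?_, z, ?_, rfl⟩
      · change y ∈ L₁ ++ (L₂ ++ L)
        simp only [List.mem_append] at hy' ⊢; tauto
      · change z ∈ L₁ ++ (L₂ ++ L)
        simp only [List.mem_append] at hz' ⊢; tauto

theorem Slp.mono (hAB : A ⊆ B) : ∀ {L : List M}, Slp A L → Slp B L
  | [], _ => trivial
  | _ :: _, h => ⟨Slp.mono hAB h.1, h.2.imp (fun h => hAB h) id⟩

theorem Slp.closure {T : Set M} (hA : A ⊆ T) (hT : ∀ x ∈ T, ∀ y ∈ T, x * y ∈ T) :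
    ∀ {L : List M}, Slp A L → ∀ x ∈ L, x ∈ T
  | [], _, x, hx => by simp at hx
  | a :: L, h, x, hx => by
    rcases List.mem_cons.1 hx with rfl | hx
    · rcases h.2 with h | ⟨y, hy, z, hz, rfl⟩
      · exact hA h
      · exact hT _ (Slp.closure hA hT h.1 y hy) _ (Slp.closure hA hT h.1 z hz)
    · exact Slp.closure hA hT h.1 x hx

theorem Within.of_mem {L : List M} (hL : Slp A L) {x : M} (hx : x ∈ L) : Within A L 0 x :=
  ⟨[], hL, le_rfl, hx⟩

theorem Within.mono {L : List M} {c d : ℕ} {x : M} (h : Within A L c x) (hcd : c ≤ d) :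
    Within A L d x := by
  obtain ⟨L', h1, h2, h3⟩ := h
  exact ⟨L', h1, h2.trans hcd, h3⟩

theorem Within.mono_set {L : List M} {c : ℕ} {x : M} (hAB : A ⊆ B) (h : Within A L c x) :
    Within B L c x := by
  obtain ⟨L', h1, h2, h3⟩ := h
  exact ⟨L', h1.mono hAB, h2, h3⟩

theorem Within.weaken {L L₂ : List M} {c : ℕ} {x : M} (h : Within A L c x)
    (h' : Slp A (L₂ ++ L)) : Within A (L₂ ++ L) c x := by
  obtain ⟨L', h1, h2, h3⟩ := h
  refine ⟨L', h1.append h', h2, ?_⟩
  simp only [List.mem_append] at h3 ⊢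
  tauto

theorem Within.of_reach {L : List M} {c : ℕ} {x : M} (h : Reach A c x) (hL : Slp A L) :
    Within A L c x := by
  have := Within.weaken (L₂ := L) h (by rw [List.append_nil]; exact hL)
  rwa [List.append_nil] at this

theorem Within.mul {L : List M} {c d : ℕ} {x y : M} (hx : Within A L c x) (hy : Within A L d y) :
    Within A L (c + d + 1) (x * y) := by
  obtain ⟨L₁, h1, h2, h3⟩ := hx
  obtain ⟨L₂, h4, h5, h6⟩ := hy
  refine ⟨x * y :: (L₁ ++ L₂), ⟨?_, Or.inr ⟨x, ?_, y, ?_, rfl⟩⟩, ?_, ?_⟩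
  · change Slp A ((L₁ ++ L₂) ++ L)
    rw [List.append_assoc]
    exact h1.append h4
  · simp only [List.append_eq, List.mem_append] at h3 ⊢; tauto
  · simp only [List.append_eq, List.mem_append] at h6 ⊢; tauto
  · simp only [List.length_cons, List.length_append]; omega
  · simp

theorem Within.trans {L L₂ : List M} {c d : ℕ} {x : M} (h : Within A (L₂ ++ L) c x)
    (hd : L₂.length ≤ d) : Within A L (c + d) x := by
  obtain ⟨L', h1, h2, h3⟩ := h
  refine ⟨L' ++ L₂, by rwa [List.append_assoc], ?_, by rwa [List.append_assoc]⟩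
  rw [List.length_append]
  omega

theorem Within.spow {L : List M} {c : ℕ} {x : M} (hx : Within A L c x) (n : ℕ) :
    Within A L (c + n) (spow x n) := by
  obtain ⟨L', h1, h2, h3⟩ := hx
  suffices h : ∃ L'', Slp A (L'' ++ L) ∧ L''.length ≤ c + n ∧ x ∈ L'' ++ L ∧
      SMP.spow x n ∈ L'' ++ L by
    obtain ⟨L'', h4, h5, _, h6⟩ := h
    exact ⟨L'', h4, h5, h6⟩
  induction n with
  | zero => exact ⟨L', h1, h2, h3, h3⟩
  | succ n ih =>
    obtain ⟨L'', h4, h5, h6, h7⟩ := ih
    refine ⟨SMP.spow x (n + 1) :: L'', ⟨h4, Or.inr ⟨_, h7, _, h6, rfl⟩⟩, ?_, ?_, ?_⟩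
    · rw [List.length_cons]; omega
    · rw [List.cons_append]; exact List.mem_cons_of_mem _ h6
    · simp

theorem Reach.of_mem {x : M} (hx : x ∈ A) : Reach A 1 x :=
  ⟨[x], ⟨trivial, Or.inl hx⟩, le_rfl, by simp⟩

/-- Programs lift along homomorphisms. -/
theorem Slp.lift {N : Type} [Mul N] {φ : M → N} (hφ : ∀ x y, φ (x * y) = φ x * φ y) :
    ∀ {L' : List N}, Slp (φ '' A) L' → ∃ L : List M, Slp A L ∧ L.map φ = L'
  | [], _ => ⟨[], trivial, rfl⟩
  | x :: L', h => by
    obtain ⟨L, hL, rfl⟩ := Slp.lift hφ h.1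
    rcases h.2 with ⟨a, ha, rfl⟩ | ⟨y, hy, z, hz, rfl⟩
    · exact ⟨a :: L, ⟨hL, Or.inl ha⟩, rfl⟩
    · obtain ⟨y', hy', rfl⟩ := List.mem_map.1 hy
      obtain ⟨z', hz', rfl⟩ := List.mem_map.1 hz
      exact ⟨y' * z' :: L, ⟨hL, Or.inr ⟨y', hy', z', hz', rfl⟩⟩, by rw [List.map_cons, hφ]⟩

theorem Reach.lift {N : Type} [Mul N] {φ : M → N} (hφ : ∀ x y, φ (x * y) = φ x * φ y) {c : ℕ}
    {x' : N} (h : Reach (φ '' A) c x') : ∃ x, Reach A c x ∧ φ x = x' := by
  obtain ⟨L', h1, h2, h3⟩ := h
  rw [List.append_nil] at h1 h3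
  obtain ⟨L, hL, rfl⟩ := Slp.lift hφ h1
  obtain ⟨x, hx, rfl⟩ := List.mem_map.1 h3
  refine ⟨x, ⟨L, by rwa [List.append_nil], by simpa using h2, by rwa [List.append_nil]⟩, rfl⟩

end

section

variable {M : Type} [Semigroup M] {A : Set M}

theorem Reach.mem_closure {c : ℕ} {x : M} (h : Reach A c x) : x ∈ Subsemigroup.closure A := by
  obtain ⟨L', h1, _, h3⟩ := h
  exact Slp.closure (T := (Subsemigroup.closure A : Set M)) Subsemigroup.subset_closure
    (fun x hx y hy => mul_mem hx hy) h1 x h3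

/-- Products of letters, read from the left. -/
inductive WordR (A : Set M) : M → Prop
  | base {a : M} (ha : a ∈ A) : WordR A a
  | snoc {x a : M} (hx : WordR A x) (ha : a ∈ A) : WordR A (x * a)

/-- Products of letters, read from the right. -/
inductive WordL (A : Set M) : M → Prop
  | base {a : M} (ha : a ∈ A) : WordL A a
  | cons {x a : M} (ha : a ∈ A) (hx : WordL A x) : WordL A (a * x)

theorem WordR.mul {x y : M} (hx : WordR A x) (hy : WordR A y) : WordR A (x * y) := by
  induction hy with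
  | base ha => exact hx.snoc ha
  | snoc _ ha ih => rw [← mul_assoc]; exact ih.snoc ha

theorem WordL.mul {x y : M} (hx : WordL A x) (hy : WordL A y) : WordL A (x * y) := by
  induction hx with
  | base ha => exact WordL.cons ha hy
  | cons ha _ ih => rw [mul_assoc]; exact WordL.cons ha ih

theorem wordR_of_mem {x : M} (hx : x ∈ Subsemigroup.closure A) : WordR A x := by
  induction hx using Subsemigroup.closure_induction with
  | mem x hx => exact WordR.base hx
  | mul x y _ _ hx hy => exact hx.mul hy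

theorem wordL_of_mem {x : M} (hx : x ∈ Subsemigroup.closure A) : WordL A x := by
  induction hx using Subsemigroup.closure_induction with
  | mem x hx => exact WordL.base hx
  | mul x y _ _ hx hy => exact hx.mul hy

theorem WordR.mem {x : M} (hx : WordR A x) : x ∈ Subsemigroup.closure A := by
  induction hx with
  | base ha => exact Subsemigroup.subset_closure ha
  | snoc _ ha ih => exact mul_mem ih (Subsemigroup.subset_closure ha)

theorem WordL.mem {x : M} (hx : WordL A x) : x ∈ Subsemigroup.closure A := by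
  induction hx with
  | base ha => exact Subsemigroup.subset_closure ha
  | cons ha _ ih => exact mul_mem (Subsemigroup.subset_closure ha) ih

theorem spow_mem {T : Subsemigroup M} {x : M} (hx : x ∈ T) : ∀ n, spow x n ∈ T
  | 0 => hx
  | n + 1 => mul_mem (spow_mem hx n) hx

variable {E : ℕ}

/-- The letters of an element `J`-above `t` are above `t`. -/
theorem Expo.closure_above (h : Expo M E) {x t : M} (hx : x ∈ Subsemigroup.closure A)
    (hxt : Ab x t) : x ∈ Subsemigroup.closure {a | a ∈ A ∧ Ab a t} := by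
  induction hx using Subsemigroup.closure_induction with
  | mem x hx => exact Subsemigroup.subset_closure ⟨hx, hxt⟩
  | mul x y _ _ hx hy =>
    exact mul_mem (hx ((h.ab_left x y).trans hxt)) (hy ((h.ab_right x y).trans hxt))

theorem Expo.above_closure (h : Expo M E) {x t : M}
    (hx : x ∈ Subsemigroup.closure {a | a ∈ A ∧ Ab a t}) : Ab x t := by
  induction hx using Subsemigroup.closure_induction with
  | mem x hx => exact hx.2
  | mul x y _ _ hx hy => exact h.ab_mul hx hy

end

end Pool.Agent.H648R3.SMP
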